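import Pool.Agent.helper1.FI.SpecQ2

/-!
# Project fi (MP_baa4d7_al), block Q2, row QD1: restriction of the idempotent
-/

set_option autoImplicit false

namespace Pool.Agent.FI

open Pool.Agent.helper58.DC Pool.Agent.DI Pool.Agent.GR Pool.Agent.OB

section
variable {G : Type} [Group G] {p : ℕ} {M : Ideal (integralClosure ℤ ℂ)}

theorem QD1_symm {z w : G → ℂ} (h : EqmF M z w) : EqmF M w z := fun x => by
  have := (h x).neg
  rwa [neg_sub] at this

theorem QD1_trans (hM : Setup p M) {z w u : G → ℂ} (h : EqmF M z w) (h' : EqmF M w u) : EqmF M z u := fun x => by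
  have := (h x).add hM (h' x)
  rwa [sub_add_sub_cancel] at this

theorem QD1_cv (hM : Setup p M) [Finite G] {z z' w w' : G → ℂ} (hz : EqmF M z z') (hw : EqmF M w w')
    (iw : ∀ x, IntAt M (w x)) (iz : ∀ x, IntAt M (z' x)) : EqmF M (cv z w) (cv z' w') := by
  intro g
  have := Fintype.ofFinite G
  have e : cv z w g - cv z' w' g =
      ∑ x, ((z x - z' x) * w (x⁻¹ * g) + z' x * (w (x⁻¹ * g) - w' (x⁻¹ * g))) := by
    rw [cv, cv, finsum_eq_sum_of_fintype, finsum_eq_sum_of_fintype, ← Finset.sum_sub_distrib]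
    exact Finset.sum_congr rfl fun x _ => by ring
  rw [e]
  exact InM.sum hM _ fun x _ => (InM.mul_right hM (hz x) (iw _)).add hM (InM.mul_left hM (iz x) (hw _))

theorem QD1_rsk {K : Subgroup G} (hM : Setup p M) {z w : G → ℂ} (h : EqmF M z w) : EqmF M (rsk K z) (rsk K w) := by
  intro x
  by_cases hx : x ∈ K
  · simp only [rsk, if_pos hx]
    exact h x
  · simp only [rsk, if_neg hx, sub_zero]
    exact InM.zero hM

theorem QD1_smul (hM : Setup p M) {z w : G → ℂ} {c : ℂ} (hc : IntAt M c) (h : EqmF M z w) :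
    EqmF M (c • z) (c • w) := by
  intro x
  have e : (c • z) x - (c • w) x = c * (z x - w x) := by
    change c * z x - c * w x = _
    ring
  rw [e]
  exact InM.mul_left hM hc (h x)

omit [Group G] in
theorem QD1_sum (hM : Setup p M) {ι : Type} (s : Finset ι) (f g : ι → G → ℂ) (h : ∀ k ∈ s, EqmF M (f k) (g k)) :
    EqmF M (∑ k ∈ s, f k) (∑ k ∈ s, g k) := by
  intro x
  rw [Finset.sum_apply, Finset.sum_apply, ← Finset.sum_sub_distrib]
  exact InM.sum hM _ fun k hk => h k hk x

end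

theorem QD1 (hBRQ : BRQ_stmt) (hBRK : BRK_stmt) (hPLF : PLF_stmt) (hCVF : CVF_stmt) : QD1_stmt := by
  intro p M hM G _ _ H Q K hQ hK a e ha hai hQa hei hee hae n c N hc hN hcong
  subst hK
  have hV := hCVF G
  obtain ⟨-, -, V3, V4, -, V6, -⟩ := hV
  obtain ⟨B1, B2⟩ := hBRK p M hM G H Q hQ a ha hai hQa
  obtain ⟨-, -, -, P4, P5, -, P7, -⟩ := hPLF G a
  -- powers of `e`
  have he : ∀ k, 1 ≤ k → cvp e k = e := by
    intro k hk
    induction k, hk using Nat.le_induction with
    | base => change cv dl e = e; exact (V4 e).1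
    | succ k hk ih => change cv (cvp e k) e = e; rw [ih, hee]
  have hei' : ∀ k x, IntAt M (cvp e k x) := fun k x =>
    ((hPLF G e).2.2.2.2.2.2.1 p M hM hei k (fun _ => 0) (fun _ => IntAt.zero hM) x).1
  have hri : ∀ x, IntAt M (rsk (H ⊓ cz Q) a x) := by
    intro x
    by_cases hx : x ∈ H ⊓ cz Q
    · simp only [rsk, if_pos hx]; exact hai x
    · simp only [rsk, if_neg hx]; exact IntAt.zero hM
  have hpow : ∀ k, EqmF M (cvp (rsk (H ⊓ cz Q) a) k) (cvp e k) := by
    intro k
    induction k with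
    | zero =>
      intro x
      change InM M (dl x - dl x)
      rw [sub_self]
      exact InM.zero hM
    | succ k ih => exact QD1_cv hM ih hae hri (hei' k)
  set s : ℂ := ∑ k ∈ Finset.range n, c k with hs
  have hsI : IntAt M s := IntAt.sum hM _ fun k _ => hc k
  have hi1 : EqmF M (rsk (H ⊓ cz Q) (plv n c a)) (s • e) := by
    refine QD1_trans hM (fun x => B2 n c hc x) ?_
    have h2 : s • e = ∑ k ∈ Finset.range n, c k • cvp e (k + 1) := by
      rw [hs, Finset.sum_smul]
      exact Finset.sum_congr rfl fun k _ => by rw [he (k + 1) (Nat.le_add_left 1 k)]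
    rw [h2]
    exact QD1_sum hM _ _ _ fun k _ => QD1_smul hM (hc k) (hpow (k + 1))
  have hp1 : EqmF M (rsk (H ⊓ cz Q) (cvp a N)) e := by
    refine QD1_trans hM (fun x => B1 N x hN) ?_
    have := hpow N
    rwa [he N hN] at this
  -- facts on `cvp a N` and `plv n c a`
  have hsN : ∀ k, ∀ x, x ∉ H → cvp a k x = 0 := by
    intro k
    induction k with
    | zero =>
      intro x hx
      change dl x = 0
      unfold dl
      rw [if_neg fun h => hx (by rw [h]; exact H.one_mem)]
    | succ k ih => exact V6 H _ _ ih ha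
  have hIa : ∀ x, IntAt M (cvp a N x) := fun x => (P7 p M hM hai N (fun _ => 0) (fun _ => IntAt.zero hM) x).1
  have hIi : ∀ x, IntAt M (plv n c a x) := fun x => (P7 p M hM hai n c hc x).2
  have hQN : Inv Q (cvp a N) := (P5 Q hQa N c).1
  have hQi : Inv Q (plv n c a) := (P5 Q hQa n c).2
  have hB := hBRQ p M hM G H Q hQ (cvp a N) (plv n c a) (hsN N) (P4 H ha n c) hIa hIi hQN hQi
  have h3 : EqmF M (rsk (H ⊓ cz Q) (cvp a N)) (rsk (H ⊓ cz Q) (cv (cvp a N) (plv n c a))) := QD1_rsk hM hcong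
  have hIr : ∀ x, IntAt M (rsk (H ⊓ cz Q) (plv n c a) x) := by
    intro x
    by_cases hx : x ∈ H ⊓ cz Q
    · simp only [rsk, if_pos hx]; exact hIi x
    · simp only [rsk, if_neg hx]; exact IntAt.zero hM
  have h4 : EqmF M (cv (rsk (H ⊓ cz Q) (cvp a N)) (rsk (H ⊓ cz Q) (plv n c a))) (cv e (s • e)) :=
    QD1_cv hM hp1 hi1 hIr hei
  rw [(V3 s e e).2, hee] at h4
  have h5 : EqmF M e (s • e) := QD1_trans hM (QD1_symm hp1) (QD1_trans hM h3 (QD1_trans hM hB h4))
  exact QD1_trans hM hi1 (QD1_symm h5)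

end Pool.Agent.FI
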