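import Pool.Agent.helper83.FI.SpecR

/-!
# Project fi (MP_baa4d7_al), block R, row RCY
-/

set_option autoImplicit false

namespace Pool.Agent.FI

open Pool.Agent.helper58.DC Pool.Agent.DI Pool.Agent.GR Pool.Agent.OB

theorem RCY_pow {G : Type} [Group G] (y : G) (k : ℕ) (x : G) :
    ((MulAut.conj y).toEquiv ^ k) x = y ^ k * x * (y ^ k)⁻¹ := by
  induction k generalizing x with
  | zero => simp
  | succ k ih =>
    rw [pow_succ, Equiv.Perm.mul_apply, ih]
    have : (MulAut.conj y).toEquiv x = y * x * y⁻¹ := rfl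
    rw [this, pow_succ]
    group

theorem RCY (hORB : ORB_stmt) : RCY_stmt := by
  intro p M hM G _ _ y y' hy i j hi hj hiy hjy z w hz hw
  classical
  have := Fintype.ofFinite G
  obtain ⟨K, hK⟩ := hy
  have hR : (MulAut.conj y).toEquiv ^ (p ^ K) = 1 := by
    ext x
    rw [RCY_pow, hK]
    simp
  have h1 := hORB p M hM G (MulAut.conj y).toEquiv K 0 hR (fun x => i x * j (w⁻¹ * (x⁻¹ * z)))
    (fun x => (hi x).mul hM (hj _)) (fun x => by
      have e0 : (MulAut.conj y).toEquiv x = y * x * y⁻¹ := rfl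
      have e1 : w⁻¹ * ((y * x * y⁻¹)⁻¹ * z) = y' * (w⁻¹ * (x⁻¹ * z)) * y'⁻¹ := by
        have h2 : z * y'⁻¹ = y⁻¹ * z := by rw [← hz]; group
        calc w⁻¹ * ((y * x * y⁻¹)⁻¹ * z) = (w⁻¹ * y * w) * w⁻¹ * x⁻¹ * (y⁻¹ * z) := by group
          _ = y' * w⁻¹ * x⁻¹ * (z * y'⁻¹) := by rw [hw, h2]
          _ = y' * (w⁻¹ * (x⁻¹ * z)) * y'⁻¹ := by group
      change i ((MulAut.conj y).toEquiv x) * j (w⁻¹ * (((MulAut.conj y).toEquiv x)⁻¹ * z)) = i x * j (w⁻¹ * (x⁻¹ * z))
      rw [e0, e1, hjy, hiy])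
  have h2 := Small.inM hM h1
  have e2 : co i j z w - co (rs y i) j z w = ∑ x, i x * j (w⁻¹ * (x⁻¹ * z)) -
      ∑ x ∈ Finset.univ.filter (fun x => ((MulAut.conj y).toEquiv ^ (p ^ 0)) x = x), i x * j (w⁻¹ * (x⁻¹ * z)) := by
    rw [co, co, finsum_eq_sum_of_fintype, finsum_eq_sum_of_fintype, Finset.sum_filter]
    congr 1
    refine Finset.sum_congr rfl fun x _ => ?_
    have e3 : (((MulAut.conj y).toEquiv ^ (p ^ 0)) x = x) ↔ y * x = x * y := by
      rw [pow_zero, pow_one]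
      change y * x * y⁻¹ = x ↔ _
      constructor
      · intro h
        calc y * x = y * x * y⁻¹ * y := by group
          _ = x * y := by rw [h]
      · intro h
        rw [h]
        group
    by_cases h : y * x = x * y
    · rw [if_pos (e3.2 h)]
      simp [rs, h]
    · rw [if_neg (fun h' => h (e3.1 h'))]
      simp [rs, h]
  rw [e2]
  exact h2

end Pool.Agent.FI
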