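import Pool.Agent.helper83.FI.SpecR

/-!
# Project fi (MP_baa4d7_al), block R, row RR3: idempotents supported on the centraliser
-/

set_option autoImplicit false

namespace Pool.Agent.FI

open Pool.Agent.helper58.DC Pool.Agent.DI Pool.Agent.GR Pool.Agent.OB

section
variable {G : Type} [Group G]

/-- the permutation `z ↦ a z b⁻¹` -/
def RR3_pi (a b : G) : Equiv.Perm G where
  toFun z := a * z * b⁻¹
  invFun z := a⁻¹ * z * b
  left_inv z := by group
  right_inv z := by group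

theorem RR3_pow (a b : G) (k : ℕ) (z : G) : (RR3_pi a b ^ k) z = a ^ k * z * (b ^ k)⁻¹ := by
  induction k generalizing z with
  | zero => simp
  | succ k ih =>
    rw [pow_succ, Equiv.Perm.mul_apply, ih]
    have : RR3_pi a b z = a * z * b⁻¹ := rfl
    rw [this, pow_succ a, pow_succ' b]
    group

theorem RR3_padic {p : ℕ} {n n₀ : ℕ} (hp : p.Prime) (hn : ¬ p ∣ n₀) {y y' : G}
    (hy : y ^ p ^ n = 1) (hy' : y' ^ p ^ n = 1) (h : y ^ n₀ = y' ^ n₀) : y = y' := by
  have hc : Nat.Coprime n₀ (p ^ n) :=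
    Nat.Coprime.symm (Nat.Coprime.pow_left n ((Nat.Prime.coprime_iff_not_dvd hp).mpr hn))
  have h1 : ∀ g : G, g ^ p ^ n = 1 → (g ^ n₀) ^ (n₀.gcdA (p ^ n)) = g := by
    intro g hg
    have h2 := Nat.gcd_eq_gcd_ab n₀ (p ^ n)
    rw [hc] at h2
    have h3 : g ^ ((n₀ : ℤ) * n₀.gcdA (p ^ n) + ((p ^ n : ℕ) : ℤ) * n₀.gcdB (p ^ n)) = g := by
      rw [← h2]
      simp
    rw [zpow_add, zpow_mul, zpow_mul, zpow_natCast, zpow_natCast, hg, one_zpow, mul_one] at h3
    exact h3
  rw [← h1 y hy, h, h1 y' hy']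

theorem RR3_mem {H : Subgroup G} {y z : G} : z ∈ Cz H y ↔ z ∈ H ∧ y * z = z * y := by
  unfold Cz
  rw [Subgroup.mem_inf, Subgroup.mem_centralizer_iff]
  constructor
  · rintro ⟨h1, h2⟩
    exact ⟨h1, h2 y rfl⟩
  · rintro ⟨h1, h2⟩
    refine ⟨h1, ?_⟩
    intro h hh
    rw [Set.mem_singleton_iff.1 hh]
    exact h2

/-- a sum over a subgroup, in three forms -/
theorem RR3_sum [Fintype G] (H K : Subgroup G) [Fintype H] (hK : K ≤ H) (f : G → ℂ) (hf : ∀ x, x ∉ K → f x = 0) :
    ∑ z : H, f z = ∑ᶠ z : G, f z := by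
  rw [finsum_eq_sum_of_fintype]
  apply Finset.sum_of_injOn (fun x : H => (x : G))
  · intro x _ x' _ h
    exact Subtype.ext h
  · intro x _
    exact Finset.mem_univ _
  · intro x _ hx
    exact hf x fun h => hx ⟨⟨x, hK h⟩, by simp, rfl⟩
  · intro x _
    rfl

end

theorem RR3 (hRGM : RGM_stmt) (hTRC : TRC_stmt) (hCOF : COF_stmt) (hZEA : ZEA_stmt) : RR3_stmt := by
  intro p M hM G _ _ H y hyH hpy v hv v' hv' hrv hrv' i j hi hj hii hjj
  classical
  have : Fintype G := Fintype.ofFinite G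
  have : Fintype H := Fintype.ofFinite H
  obtain ⟨C1, C2, C3, C4, -, -⟩ := hCOF G
  set L := Cz H y with hL
  have hLH : L ≤ H := fun z hz => (RR3_mem.1 hz).1
  have hyL : y ∈ L := RR3_mem.2 ⟨hyH, rfl⟩
  have haL : y * v ∈ L := L.mul_mem hyL hv
  have hbL : y * v' ∈ L := L.mul_mem hyL hv'
  have hyv : Commute y v := (RR3_mem.1 hv).2
  have hyv' : Commute y v' := (RR3_mem.1 hv').2
  set a : H := ⟨y * v, hLH haL⟩ with ha
  set b : H := ⟨y * v', hLH hbL⟩ with hb
  obtain ⟨n, hyn⟩ := hpy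
  set n₀ : ℕ := orderOf v * orderOf v' with hn₀
  have hpn : ¬ p ∣ n₀ := by
    intro h
    rcases (hM.pr.dvd_mul).mp h with h | h
    · exact hrv h
    · exact hrv' h
  have hvn : v ^ n₀ = 1 := by rw [hn₀, pow_mul, pow_orderOf_eq_one, one_pow]
  have hvn' : v' ^ n₀ = 1 := by rw [hn₀, mul_comm, pow_mul, pow_orderOf_eq_one, one_pow]
  have han : (y * v) ^ n₀ = y ^ n₀ := by rw [hyv.mul_pow, hvn, mul_one]
  have hbn : (y * v') ^ n₀ = y ^ n₀ := by rw [hyv'.mul_pow, hvn', mul_one]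
  have haN : (y * v) ^ (p ^ n * n₀) = 1 := by
    rw [mul_comm, pow_mul, han, ← pow_mul, mul_comm, pow_mul, hyn, one_pow]
  have hbN : (y * v') ^ (p ^ n * n₀) = 1 := by
    rw [mul_comm, pow_mul, hbn, ← pow_mul, mul_comm, pow_mul, hyn, one_pow]
  have hfix : ∀ z : H, (RR3_pi a b ^ n₀) z = z → (z : G) ∈ L := by
    intro z hz
    rw [RR3_pow] at hz
    have h1 : (a : G) ^ n₀ * z * ((b : G) ^ n₀)⁻¹ = z := by
      have := congrArg (fun x : H => (x : G)) hz
      simpa using this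
    have h2 : (a : G) ^ n₀ = y ^ n₀ := han
    have h3 : (b : G) ^ n₀ = y ^ n₀ := hbn
    rw [h2, h3] at h1
    have h6 : y ^ n₀ * z = (z : G) * y ^ n₀ := by
      calc y ^ n₀ * z = (y ^ n₀ * z * (y ^ n₀)⁻¹) * y ^ n₀ := by group
        _ = z * y ^ n₀ := by rw [h1]
    have h4 : ((z : G)⁻¹ * y * z) ^ n₀ = y ^ n₀ := by
      have h5 : ((z : G)⁻¹ * y * z) ^ n₀ = (z : G)⁻¹ * y ^ n₀ * z := by
        have := conj_pow (a := (z : G)⁻¹) (b := y) (i := n₀)
        rw [inv_inv] at this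
        exact this
      rw [h5, mul_assoc, h6, inv_mul_cancel_left]
    have h7 : (z : G)⁻¹ * y * z = y := by
      refine RR3_padic hM.pr hpn ?_ hyn h4
      have h5 : ((z : G)⁻¹ * y * z) ^ p ^ n = (z : G)⁻¹ * y ^ p ^ n * z := by
        have := conj_pow (a := (z : G)⁻¹) (b := y) (i := p ^ n)
        rw [inv_inv] at this
        exact this
      rw [h5, hyn]
      group
    refine RR3_mem.2 ⟨z.2, ?_⟩
    calc y * z = z * ((z : G)⁻¹ * y * z) := by group
      _ = z * y := by rw [h7]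
  have hiH : ∀ x, x ∉ H → i x = 0 := fun x hx => hi.sup x fun h => hx (hLH h)
  have hjH : ∀ x, x ∉ H → j x = 0 := fun x hx => hj.sup x fun h => hx (hLH h)
  have hmov : ∀ z : G, (y * v) * z * (y * v')⁻¹ ∈ L ↔ z ∈ L := by
    intro z
    constructor
    · intro h
      have h2 := L.mul_mem (L.mul_mem (L.inv_mem haL) h) hbL
      have h3 : (y * v)⁻¹ * ((y * v) * z * (y * v')⁻¹) * (y * v') = z := by group
      rwa [h3] at h2
    · intro h
      exact L.mul_mem (L.mul_mem haL h) (L.inv_mem hbL)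
  have key := hRGM p M hM H (fun z w => co i j (z : G) (w : G))
    (fun z w => if (z : G) ∈ L ∧ (w : G) ∈ L then co i j (z : G) (w : G) else 0) (RR3_pi a b) n n₀ hpn ?_ ?_ ?_ ?_ ?_ ?_ ?_ ?_
  · have h0 := sub_eq_zero.1 (hZEA p M hM _ key)
    have t1 := hTRC G H i j hiH hjH (y * v) (hLH haL) (y * v') (hLH hbL)
    have t2 := hTRC G L i j hi.sup hj.sup (y * v) haL (y * v') hbL
    rw [← t1, ← t2, ← finsum_set_coe_eq_finsum_mem]
    refine Eq.trans (finsum_eq_sum_of_fintype (α := H)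
      (fun z : H => co i j z ((y * v) * z * (y * v')⁻¹))) ?_
    refine Eq.trans h0 ?_
    have e1 : ∀ z : H, (if (z : G) ∈ L ∧ ((RR3_pi a b z : H) : G) ∈ L then co i j (z : G) ((RR3_pi a b z : H) : G) else 0) =
        (fun z : G => if z ∈ L then co i j z ((y * v) * z * (y * v')⁻¹) else 0) (z : G) := by
      intro z
      have e2 : ((RR3_pi a b z : H) : G) = (y * v) * z * (y * v')⁻¹ := rfl
      rw [e2]
      by_cases hz : (z : G) ∈ L
      · rw [if_pos ⟨hz, (hmov z).2 hz⟩]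
        simp only [hz, if_true]
      · rw [if_neg fun h => hz h.1]
        simp only [hz, if_false]
    rw [Finset.sum_congr rfl fun z _ => e1 z]
    refine Eq.trans (RR3_sum H L hLH (fun z : G => if z ∈ L then co i j z ((y * v) * z * (y * v')⁻¹) else 0)
      fun x hx => if_neg hx) ?_
    refine finsum_congr fun z => ?_
    by_cases hz : z ∈ L
    · have hz' : z ∈ (L : Set G) := hz
      rw [if_pos hz, finsum_eq_if, if_pos hz']
    · have hz' : z ∉ (L : Set G) := hz
      rw [if_neg hz, finsum_eq_if, if_neg hz']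
  · ext z
    rw [RR3_pow]
    simp only [Subgroup.coe_mul, Subgroup.coe_inv, Subgroup.coe_pow, Equiv.Perm.coe_one, id_eq]
    have h2 : (a : G) ^ (p ^ n * n₀) = 1 := haN
    have h3 : (b : G) ^ (p ^ n * n₀) = 1 := hbN
    rw [h2, h3]
    simp
  · intro z w
    exact C4 p M hM i j hi.int hj.int _ _
  · intro z w
    split_ifs
    · exact C4 p M hM i j hi.int hj.int _ _
    · exact IntAt.zero hM
  · intro z w
    have h1 := C1 i j i j (z : G) (w : G)
    rw [hi.idem, hj.idem] at h1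
    rw [← h1]
    exact RR3_sum H H le_rfl (fun u : G => co i j (z : G) u * co i j u (w : G)) fun x hx => by
      rw [C2 H i j hiH hjH (z : G) x (Or.inl ⟨z.2, hx⟩), zero_mul]
  · intro z w
    by_cases hz : (z : G) ∈ L
    · by_cases hw : (w : G) ∈ L
      · rw [if_pos ⟨hz, hw⟩]
        have h1 := C1 i j i j (z : G) (w : G)
        rw [hi.idem, hj.idem] at h1
        rw [← h1]
        have e1 : ∀ u : H, (if (z : G) ∈ L ∧ (u : G) ∈ L then co i j (z : G) (u : G) else 0) *
            (if (u : G) ∈ L ∧ (w : G) ∈ L then co i j (u : G) (w : G) else 0) =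
            (fun u : G => co i j (z : G) u * co i j u (w : G)) (u : G) := by
          intro u
          by_cases hu : (u : G) ∈ L
          · rw [if_pos ⟨hz, hu⟩, if_pos ⟨hu, hw⟩]
          · rw [if_neg fun h => hu h.2, zero_mul]
            dsimp only
            rw [C2 L i j hi.sup hj.sup (z : G) u (Or.inl ⟨hz, hu⟩), zero_mul]
        rw [Finset.sum_congr rfl fun u _ => e1 u]
        exact RR3_sum H L hLH (fun u : G => co i j (z : G) u * co i j u (w : G)) fun x hx => by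
          rw [C2 L i j hi.sup hj.sup (z : G) x (Or.inl ⟨hz, hx⟩), zero_mul]
      · rw [if_neg fun h => hw h.2]
        refine Finset.sum_eq_zero fun u _ => ?_
        rw [if_neg (c := (u : G) ∈ L ∧ (w : G) ∈ L) fun h => hw h.2, mul_zero]
    · rw [if_neg fun h => hz h.1]
      refine Finset.sum_eq_zero fun u _ => ?_
      rw [if_neg (c := (z : G) ∈ L ∧ (u : G) ∈ L) fun h => hz h.1, zero_mul]
  · intro z w
    exact C3 i j (y * v) (y * v') hii hjj (z : G) (w : G)
  · intro z w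
    have e1 : ((RR3_pi a b z : H) : G) = (y * v) * z * (y * v')⁻¹ := rfl
    have e2 : ((RR3_pi a b w : H) : G) = (y * v) * w * (y * v')⁻¹ := rfl
    rw [e1, e2, C3 i j (y * v) (y * v') hii hjj (z : G) (w : G)]
    by_cases h : (z : G) ∈ L ∧ (w : G) ∈ L
    · rw [if_pos h, if_pos ⟨(hmov z).2 h.1, (hmov w).2 h.2⟩]
    · rw [if_neg h, if_neg fun h' => h ⟨(hmov z).1 h'.1, (hmov w).1 h'.2⟩]
  · intro z w hz hw
    rw [if_pos ⟨hfix z hz, hfix w hw⟩, sub_self]
    exact InM.zero hM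

end Pool.Agent.FI
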