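import Pool.Agent.helper70.FI.SpecQ1

/-!
# Project fi (MP_baa4d7_al), block Q1, row QSM: second main theorem for one character
-/

set_option autoImplicit false

namespace Pool.Agent.FI

open Pool.Agent.helper58.DC Pool.Agent.DI Pool.Agent.GR Pool.Agent.OB

theorem QSM (hRR1 : RR1_stmt) (hEQY : EQY_stmt) (hQES : QES_stmt) (hEIN : EIN_stmt) (hIDM : IDM_stmt) : QSM_stmt := by
  intro p M hM G _ _ L y hy hpy θ v hv hrv χ' hχ
  obtain ⟨hB1, hB2⟩ := Q1_BC M L y θ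
  have hmem : ∀ z : G, z ∈ Cz L y ↔ z ∈ L ∧ y * z = z * y := by
    intro z
    unfold Cz
    rw [Subgroup.mem_inf, Subgroup.mem_centralizer_iff]
    exact ⟨fun h => ⟨h.1, h.2 y rfl⟩, fun h => ⟨h.1, fun w hw => by rw [Set.mem_singleton_iff.1 hw]; exact h.2⟩⟩
  have hvL : v ∈ L := ((hmem v).1 hv).1
  have hg : y * v ∈ Cz L y := (Cz L y).mul_mem ((hmem y).2 ⟨hy, rfl⟩) hv
  obtain ⟨I1, -, I3, -⟩ := hIDM G L (Bl M L θ) hB1.sub
  obtain ⟨J1, -, J3, -⟩ := hIDM G (Cz L y) (BlC M L θ y) hB2.sub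
  have he : Idm M L (eS L (Bl M L θ)) := ⟨I1.2, hEIN p M hM G L _ hB1, I3⟩
  have hf : Idm M L (eS (Cz L y) (BlC M L θ y)) :=
    ⟨fun x hx => J1.2 x fun h => hx ((hmem x).1 h).1, hEIN p M hM G (Cz L y) _ hB2, J3⟩
  have key := hRR1 p M hM G L y hy v hvL hpy hrv ((hmem v).1 hv).2 _ _ he hf
    (fun x => I1.1 _ (L.mul_mem hy hvL) x) (fun x => J1.1 _ hg x)
    (fun x hx => hEQY p M hM G L y hy hpy θ x hx) χ' hχ
  obtain ⟨E1, E2⟩ := hQES G L χ' hχ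
  rw [E1 (Cz L y) (fun z hz => ((hmem z).1 hz).1) _ hB2.sub (y * v) hg] at key
  rw [← key]
  obtain ⟨F1, F2⟩ := E2 (Bl M L θ) hB1.sub (y * v) (L.mul_mem hy hvL)
  split_ifs with h
  · exact F1 h
  · exact F2 h

end Pool.Agent.FI
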